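import Mathlib

/-!
# Integral combinations of independent random variables with small concentration
-/

set_option autoImplicit false

namespace Pool.Agent.V8H81.Cas

open MeasureTheory ENNReal

variable {m : ℕ}

theorem comb_succ {α : Fin (m + 1) → Type} [∀ j, MeasureSpace (α j)] [∀ j, SigmaFinite (volume : Measure (α j))]
    (A : ∀ j, Set (α j)) (hA : ∀ j, MeasurableSet (A j)) (hA1 : ∀ j, volume (A j) ≤ 1)
    (f : ∀ j, α j → ℚ) (hf : ∀ j, Measurable (f j)) (i : Fin (m + 1)) (B : ℝ≥0∞)
    (hB : ∀ c : ℚ, volume (A i ∩ {x | f i x = c}) ≤ B) (r : Fin (m + 1) → ℤ) (hr : r i ≠ 0) (c : ℚ) :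
    volume {V : ∀ j, α j | (∀ j, V j ∈ A j) ∧ ∑ j, (r j : ℚ) * f j (V j) = c} ≤ B := by
  classical
  set S : Set (∀ j, α j) := {V : ∀ j, α j | (∀ j, V j ∈ A j) ∧ ∑ j, (r j : ℚ) * f j (V j) = c} with hS
  have hSm : MeasurableSet S := by
    have e : S = (⋂ j, (fun V : ∀ j, α j => V j) ⁻¹' A j) ∩
        (fun V : ∀ j, α j => (fun j => f j (V j))) ⁻¹' {w : Fin (m + 1) → ℚ | ∑ j, (r j : ℚ) * w j = c} := by
      ext V
      simp [hS]
    rw [e]
    refine MeasurableSet.inter (MeasurableSet.iInter fun j => (measurable_pi_apply j) (hA j)) ?_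
    refine (measurable_pi_lambda _ fun j => (hf j).comp (measurable_pi_apply j)) ?_
    exact (Set.to_countable _).measurableSet
  have hmp := volume_preserving_piFinSuccAbove α i
  have h1 : volume S = (volume.prod volume) ((MeasurableEquiv.piFinSuccAbove α i).symm ⁻¹' S) := by
    rw [← Measure.volume_eq_prod, ← hmp.symm.measure_preimage hSm.nullMeasurableSet]
  rw [h1, Measure.prod_apply_symm ((MeasurableEquiv.piFinSuccAbove α i).symm.measurable hSm)]
  set A' : Set (∀ j, α (i.succAbove j)) := {y | ∀ j, y j ∈ A (i.succAbove j)} with hA'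
  have hA'e : A' = Set.pi Set.univ (fun j => A (i.succAbove j)) := by
    ext y; simp [hA']
  have hA'm : MeasurableSet A' := by
    rw [hA'e]; exact MeasurableSet.univ_pi fun j => hA _
  have hA'v : volume A' ≤ 1 := by
    rw [hA'e, volume_pi_pi]
    exact Finset.prod_le_one' fun j _ => hA1 _
  calc ∫⁻ y, volume ((fun x => (x, y)) ⁻¹' ((MeasurableEquiv.piFinSuccAbove α i).symm ⁻¹' S))
      ≤ ∫⁻ y, A'.indicator (fun _ => B) y := by
        apply lintegral_mono
        intro y
        by_cases hy : y ∈ A'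
        · rw [Set.indicator_of_mem hy]
          refine le_trans (measure_mono ?_) (hB ((c - ∑ j, (r (i.succAbove j) : ℚ) * f _ (y j)) / r i))
          intro x hx
          rw [Set.mem_preimage, Set.mem_preimage, hS, Set.mem_setOf_eq] at hx
          obtain ⟨hx1, hx2⟩ := hx
          rw [MeasurableEquiv.piFinSuccAbove_symm_apply] at hx1 hx2
          have e0 : ∀ (x : α i) (y : ∀ j, α (i.succAbove j)), (Fin.insertNthEquiv α i) (x, y) =
              i.insertNth x y := fun _ _ => rfl
          rw [e0] at hx1 hx2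
          refine ⟨by simpa using hx1 i, ?_⟩
          rw [Fin.sum_univ_succAbove _ i] at hx2
          simp only [Fin.insertNth_apply_same, Fin.insertNth_apply_succAbove] at hx2
          have hri : (r i : ℚ) ≠ 0 := by exact_mod_cast hr
          rw [Set.mem_setOf_eq, eq_div_iff hri]
          linarith
        · rw [Set.indicator_of_notMem hy]
          apply le_of_eq
          convert measure_empty (μ := (volume : Measure (α i)))
          apply Set.eq_empty_of_forall_notMem
          intro x hx
          apply hy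
          rw [Set.mem_preimage, Set.mem_preimage, hS, Set.mem_setOf_eq] at hx
          obtain ⟨hx1, -⟩ := hx
          rw [MeasurableEquiv.piFinSuccAbove_symm_apply] at hx1
          have e0 : ∀ (x : α i) (y : ∀ j, α (i.succAbove j)), (Fin.insertNthEquiv α i) (x, y) =
              i.insertNth x y := fun _ _ => rfl
          rw [e0] at hx1
          intro j
          simpa using hx1 (i.succAbove j)
    _ = B * volume A' := by rw [lintegral_indicator hA'm, setLIntegral_const]
    _ ≤ B * 1 := by gcongr
    _ = B := mul_one _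

theorem comb {α : Fin m → Type} [∀ j, MeasureSpace (α j)] [∀ j, SigmaFinite (volume : Measure (α j))]
    (A : ∀ j, Set (α j)) (hA : ∀ j, MeasurableSet (A j)) (hA1 : ∀ j, volume (A j) ≤ 1)
    (f : ∀ j, α j → ℚ) (hf : ∀ j, Measurable (f j)) (i : Fin m) (B : ℝ≥0∞)
    (hB : ∀ c : ℚ, volume (A i ∩ {x | f i x = c}) ≤ B) (r : Fin m → ℤ) (hr : r i ≠ 0) (c : ℚ) :
    volume {V : ∀ j, α j | (∀ j, V j ∈ A j) ∧ ∑ j, (r j : ℚ) * f j (V j) = c} ≤ B := by
  obtain _ | m := m
  · exact i.elim0
  · exact comb_succ A hA hA1 f hf i B hB r hr c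

end Pool.Agent.V8H81.Cas
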